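import Mathlib

/-!
The scalar functions `ee p z = exp (-z^p/p)` and `Gm p z = ∫_0^z ee p`.
-/

namespace Helper68.CP

open Filter Topology Set

/-- `exp (-z^p/p)` -/
noncomputable def ee (p : ℕ) (z : ℝ) : ℝ := Real.exp (-(z ^ p / p))

/-- the primitive of `ee p` -/
noncomputable def Gm (p : ℕ) (z : ℝ) : ℝ := ∫ v in (0 : ℝ)..z, ee p v

variable {p : ℕ}

theorem ee_pos (z : ℝ) : 0 < ee p z := Real.exp_pos _

theorem ee_zero (hp : 1 ≤ p) : ee p 0 = 1 := by
  have : p ≠ 0 := by omega
  simp [ee, this]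

theorem continuous_ee : Continuous (ee p) := by
  unfold ee; fun_prop

theorem hasDerivAt_ee (hp : 1 ≤ p) (z : ℝ) : HasDerivAt (ee p) (-(z ^ (p - 1)) * ee p z) z := by
  have hp' : (p : ℝ) ≠ 0 := by positivity
  have h1 : HasDerivAt (fun z : ℝ => -(z ^ p / p)) (-(z ^ (p - 1))) z := by
    have h := ((hasDerivAt_pow p z).div_const (p : ℝ)).neg
    have e : -((p : ℝ) * z ^ (p - 1) / p) = -(z ^ (p - 1)) := by
      field_simp
    rw [e] at h
    exact h
  have h2 := h1.exp
  rw [mul_comm] at h2
  exact h2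

theorem hasDerivAt_Gm (z : ℝ) : HasDerivAt (Gm p) (ee p z) z :=
  intervalIntegral.integral_hasDerivAt_right (continuous_ee.intervalIntegrable _ _)
    (continuous_ee.stronglyMeasurableAtFilter _ _) continuous_ee.continuousAt

theorem Gm_zero : Gm p 0 = 0 := by simp [Gm]

theorem continuous_Gm : Continuous (Gm p) :=
  continuous_iff_continuousAt.2 fun z => (hasDerivAt_Gm z).continuousAt

theorem strictMono_Gm : StrictMono (Gm p) :=
  strictMono_of_deriv_pos fun z => by rw [(hasDerivAt_Gm z).deriv]; exact ee_pos z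

theorem Gm_pos {z : ℝ} (hz : 0 < z) : 0 < Gm p z := by
  rw [← Gm_zero (p := p)]; exact strictMono_Gm hz

theorem ee_le_exp (hp : 1 ≤ p) {z : ℝ} (hz : 1 ≤ z) : ee p z ≤ Real.exp (-(z / p)) := by
  apply Real.exp_le_exp.2
  apply neg_le_neg
  gcongr
  exact le_self_pow₀ hz (by omega)

theorem tendsto_pow_mul_ee (hp : 1 ≤ p) (n : ℕ) :
    Tendsto (fun z => z ^ n * ee p z) atTop (𝓝 0) := by
  have hp' : (0 : ℝ) < 1 / p := by positivity
  have h1 : Tendsto (fun z : ℝ => z ^ n * Real.exp (-(1 / p : ℝ) * z)) atTop (𝓝 0) := by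
    have := tendsto_rpow_mul_exp_neg_mul_atTop_nhds_zero (n : ℝ) (1 / p : ℝ) hp'
    refine this.congr fun z => ?_
    rw [Real.rpow_natCast]
  refine squeeze_zero' ?_ ?_ h1
  · filter_upwards [eventually_ge_atTop 0] with z hz
    exact mul_nonneg (pow_nonneg hz n) (ee_pos z).le
  · filter_upwards [eventually_ge_atTop 1] with z hz
    have h0 : (0 : ℝ) ≤ z ^ n := by positivity
    refine mul_le_mul_of_nonneg_left ((ee_le_exp hp hz).trans (le_of_eq ?_)) h0
    congr 1; ring

/-- a function with nonpositive derivative tending to `0` is nonnegative -/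
theorem nonneg_of_deriv_nonpos {f f' : ℝ → ℝ} {a : ℝ} (hf : ∀ z, a ≤ z → HasDerivAt f (f' z) z)
    (hf' : ∀ z, a ≤ z → f' z ≤ 0) (h0 : Tendsto f atTop (𝓝 0)) : 0 ≤ f a := by
  have hanti : AntitoneOn f (Ici a) := by
    refine antitoneOn_of_deriv_nonpos (convex_Ici a)
      (fun z hz => (hf z hz).continuousAt.continuousWithinAt)
      (fun z hz => (hf z (interior_subset hz)).differentiableAt.differentiableWithinAt)
      (fun z hz => ?_)
    rw [(hf z (interior_subset hz)).deriv]
    exact hf' z (interior_subset hz)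
  refine le_of_tendsto h0 ?_
  filter_upwards [eventually_ge_atTop a] with z hz
  exact hanti self_mem_Ici hz hz

theorem Gm_le (hp : 1 ≤ p) (z : ℝ) : Gm p z ≤ Gm p 1 + ee p 1 := by
  rcases le_or_gt z 1 with h | h
  · have := strictMono_Gm.monotone (f := Gm p) h
    have := ee_pos (p := p) 1
    linarith
  · have hanti : AntitoneOn (fun z => Gm p z + ee p z) (Ici 1) := by
      have hd : ∀ z : ℝ, HasDerivAt (fun z => Gm p z + ee p z)
          (ee p z + -(z ^ (p - 1)) * ee p z) z := fun z =>
        (hasDerivAt_Gm z).add (hasDerivAt_ee hp z)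
      refine antitoneOn_of_deriv_nonpos (convex_Ici 1)
        (fun z _ => (hd z).continuousAt.continuousWithinAt)
        (fun z _ => (hd z).differentiableAt.differentiableWithinAt)
        (fun z hz => ?_)
      rw [(hd z).deriv]
      have hz1 : (1 : ℝ) ≤ z := interior_subset hz
      have h1 : (1 : ℝ) ≤ z ^ (p - 1) := one_le_pow₀ hz1
      have := ee_pos (p := p) z
      nlinarith
    have := hanti (self_mem_Ici (a := (1:ℝ))) (show z ∈ Ici (1:ℝ) from h.le) h.le
    have := ee_pos (p := p) z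
    simp only at *
    linarith

/-- the limit of `Gm p` at infinity -/
noncomputable def hs (p : ℕ) : ℝ := ⨆ z, Gm p z

theorem tendsto_Gm (hp : 1 ≤ p) : Tendsto (Gm p) atTop (𝓝 (hs p)) :=
  tendsto_atTop_ciSup strictMono_Gm.monotone ⟨_, by rintro _ ⟨z, rfl⟩; exact Gm_le hp z⟩

theorem Gm_lt (hp : 1 ≤ p) (z : ℝ) : Gm p z < hs p := by
  have h1 : Gm p z < Gm p (z + 1) := strictMono_Gm (by linarith)
  exact h1.trans_le (strictMono_Gm.monotone.ge_of_tendsto (tendsto_Gm hp) _)

theorem hs_pos (hp : 1 ≤ p) : 0 < hs p := by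
  have := Gm_lt hp 0; rwa [Gm_zero] at this

/-- the tail of the integral -/
noncomputable def tl (p : ℕ) (z : ℝ) : ℝ := hs p - Gm p z

theorem tl_pos (hp : 1 ≤ p) (z : ℝ) : 0 < tl p z := by
  have := Gm_lt hp z; unfold tl; linarith

theorem hasDerivAt_tl (z : ℝ) : HasDerivAt (tl p) (-ee p z) z := by
  have := (hasDerivAt_Gm (p := p) z).const_sub (hs p)
  exact this

theorem continuous_tl : Continuous (tl p) := continuous_const.sub continuous_Gm

theorem tendsto_tl (hp : 1 ≤ p) : Tendsto (tl p) atTop (𝓝 0) := by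
  have := (tendsto_const_nhds (x := hs p)).sub (tendsto_Gm hp)
  rwa [sub_self] at this

theorem strictAnti_tl : StrictAnti (tl p) := fun a b h => by
  have := strictMono_Gm (p := p) h
  unfold tl; linarith

/-- upper bound for the tail -/
theorem tl_le (hp : 1 ≤ p) {z : ℝ} (hz : 0 < z) : z ^ (p - 1) * tl p z ≤ ee p z := by
  have key : 0 ≤ ee p z / z ^ (p - 1) - tl p z := by
    apply nonneg_of_deriv_nonpos (f := fun z => ee p z / z ^ (p - 1) - tl p z)
      (f' := fun z => (-(z ^ (p - 1)) * ee p z * z ^ (p - 1) -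
        ee p z * (((p - 1 : ℕ) : ℝ) * z ^ (p - 1 - 1))) / (z ^ (p - 1)) ^ 2 - -ee p z) (a := z)
    · intro w hw
      have hw0 : 0 < w := hz.trans_le hw
      exact ((hasDerivAt_ee hp w).div (hasDerivAt_pow (p - 1) w) (by positivity)).sub
        (hasDerivAt_tl w)
    · intro w hw
      have hw0 : 0 < w := hz.trans_le hw
      have h1 : (0 : ℝ) < w ^ (p - 1) := by positivity
      have h2 : (0 : ℝ) ≤ ee p w * (((p - 1 : ℕ) : ℝ) * w ^ (p - 1 - 1)) :=
        mul_nonneg (ee_pos w).le (by positivity)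
      have h3 : (-(w ^ (p - 1)) * ee p w * w ^ (p - 1) -
        ee p w * (((p - 1 : ℕ) : ℝ) * w ^ (p - 1 - 1))) / (w ^ (p - 1)) ^ 2 - -ee p w =
        -(ee p w * (((p - 1 : ℕ) : ℝ) * w ^ (p - 1 - 1))) / (w ^ (p - 1)) ^ 2 := by
        field_simp
        ring
      rw [h3]
      exact div_nonpos_of_nonpos_of_nonneg (neg_nonpos.2 h2) (by positivity)
    · have h1 : Tendsto (fun z => ee p z / z ^ (p - 1)) atTop (𝓝 0) := by
        have h0 := tendsto_pow_mul_ee hp 0
        simp only [pow_zero, one_mul] at h0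
        refine squeeze_zero' ?_ ?_ h0
        · filter_upwards [eventually_gt_atTop 0] with w hw
          exact div_nonneg (ee_pos w).le (by positivity)
        · filter_upwards [eventually_ge_atTop 1] with w hw
          exact div_le_self (ee_pos w).le (one_le_pow₀ hw)
      have := h1.sub (tendsto_tl hp)
      simpa using this
  have h1 : (0 : ℝ) < z ^ (p - 1) := by positivity
  have h2 : tl p z ≤ ee p z / z ^ (p - 1) := by linarith
  rw [le_div_iff₀ h1] at h2
  linarith [mul_comm (tl p z) (z ^ (p - 1))]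

/-- lower bound for the tail -/
theorem le_tl (hp : 1 ≤ p) {z : ℝ} (hz : 0 < z) : z * ee p z ≤ (z ^ p + p) * tl p z := by
  have hpr : (1 : ℝ) ≤ p := by exact_mod_cast hp
  have key : 0 ≤ tl p z - z * ee p z / (z ^ p + p) := by
    apply nonneg_of_deriv_nonpos (f := fun z => tl p z - z * ee p z / (z ^ p + p))
      (f' := fun z => -ee p z - ((1 * ee p z + z * (-(z ^ (p - 1)) * ee p z)) * (z ^ p + p) -
        z * ee p z * (p * z ^ (p - 1))) / (z ^ p + p) ^ 2) (a := z)
    · intro w hw
      have hw0 : 0 < w := hz.trans_le hw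
      have hpos : (0 : ℝ) < w ^ p + p := by positivity
      have h3 : HasDerivAt (fun z : ℝ => z ^ p + (p : ℝ)) (p * w ^ (p - 1)) w :=
        (hasDerivAt_pow p w).add_const _
      exact (hasDerivAt_tl w).sub (((hasDerivAt_id w).mul (hasDerivAt_ee hp w)).div h3 hpos.ne')
    · intro w hw
      have hw0 : 0 < w := hz.trans_le hw
      have hpos : (0 : ℝ) < w ^ p + p := by positivity
      have hwp : w * w ^ (p - 1) = w ^ p := by
        rw [← pow_succ']; congr 1; omega
      have h3 : -ee p w - ((1 * ee p w + w * (-(w ^ (p - 1)) * ee p w)) * (w ^ p + p) -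
        w * ee p w * (p * w ^ (p - 1))) / (w ^ p + p) ^ 2 =
        -(ee p w * (p ^ 2 + p + w ^ p)) / (w ^ p + p) ^ 2 := by
        have e1 : w * (-(w ^ (p - 1)) * ee p w) = -(w ^ p * ee p w) := by rw [← hwp]; ring
        have e2 : w * ee p w * (p * w ^ (p - 1)) = p * w ^ p * ee p w := by rw [← hwp]; ring
        rw [e1, e2]
        field_simp
        ring
      rw [h3]
      refine div_nonpos_of_nonpos_of_nonneg (neg_nonpos.2 (mul_nonneg (ee_pos w).le ?_))
        (by positivity)
      positivity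
    · have h1 : Tendsto (fun z : ℝ => z * ee p z / (z ^ p + p)) atTop (𝓝 0) := by
        have h0 := tendsto_pow_mul_ee hp 1
        simp only [pow_one] at h0
        refine squeeze_zero' ?_ ?_ h0
        · filter_upwards [eventually_gt_atTop 0] with w hw
          exact div_nonneg (mul_nonneg hw.le (ee_pos w).le) (by positivity)
        · filter_upwards [eventually_ge_atTop 1] with w hw
          refine div_le_self (mul_nonneg (by linarith) (ee_pos w).le) ?_
          have : (0 : ℝ) ≤ w ^ p := by positivity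
          linarith
      have := (tendsto_tl hp).sub h1
      simpa using this
  have h1 : (0 : ℝ) < z ^ p + p := by positivity
  have h2 : z * ee p z / (z ^ p + p) ≤ tl p z := by linarith
  rw [div_le_iff₀ h1] at h2
  linarith [mul_comm (tl p z) (z ^ p + p)]

theorem tl_le' (hp : 1 ≤ p) {z : ℝ} (hz : 0 < z) : z ^ p * tl p z ≤ z * ee p z := by
  have h := mul_le_mul_of_nonneg_left (tl_le hp hz) hz.le
  rw [← mul_assoc] at h
  have hwp : z * z ^ (p - 1) = z ^ p := by
    rw [← pow_succ']; congr 1; omega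
  rwa [hwp] at h

theorem tendsto_pow_mul_tl (hp : 1 ≤ p) (n : ℕ) :
    Tendsto (fun z => z ^ n * tl p z) atTop (𝓝 0) := by
  refine squeeze_zero' ?_ ?_ (tendsto_pow_mul_ee hp n)
  · filter_upwards [eventually_ge_atTop 0] with z hz
    exact mul_nonneg (pow_nonneg hz n) (tl_pos hp z).le
  · filter_upwards [eventually_ge_atTop 1] with z hz
    have h0 : (0 : ℝ) ≤ z ^ n := by positivity
    refine mul_le_mul_of_nonneg_left ?_ h0
    have h1 := tl_le hp (z := z) (by linarith)
    have h2 : (1 : ℝ) ≤ z ^ (p - 1) := one_le_pow₀ hz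
    have h3 := tl_pos hp z
    nlinarith

end Helper68.CP
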